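import Pool.Agent.R852.MX.Tw

set_option autoImplicit false

/-! # The twisted topological zeta functions of products of powers of forms over products of determinantal ideals

Let `x` be the generic matrix of one of the three spaces `S` of matrices: all `m × n` matrices, the
symmetric `n × n` matrices, the skew symmetric `n × n` matrices (`MSpace`). Let `p t`, `t < T`, be sizes
of minors (of Pfaffians of size `2 (p t)` in the skew symmetric case), `p t < min (m, n)`, `p t < n`, or
`2 (p t) + 1 < n` (`Small`), which are distributed over `B` blocks: `t` belongs to the block `β t`. For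
`b < B` let

  `F_b = ∑_J y_{b,J} ∏_{β t = b} M_{J t}(x)`,

where `J` runs over the choices of one minor (Pfaffian) `M_{J t}` of size `p t` for each `t` in the block
`b`, and the `y_{b,J}` are further variables. So `F_b` is the form over the product of the ideals of the
minors of the sizes `p t`, `β t = b`. Let `f = ∏ b, F_b ^ a b`, `a b ≥ 1`, `B > 0` (`mixForm`,
with integral coefficients).

The twisted topological zeta function `Z^(e)` is taken from the spaces of jets, as Denef and Loeser do
in their paper on motivic Igusa zeta functions (1998). For a character `α` of order `e` of the group of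
the roots of unity they form the series of the `α`-parts of the classes of the covers
`U_{d,k} = {(φ, w) | f(φ) = w ^ k t ^ d mod t ^ (d + 1), w ≠ 0}` (`JetC`), `e ∣ k`, of the sets of the
`d`-jets on which `f` has the order `d`; its Euler characteristic at `T = 𝕃 ^ (-s)` is `Z^(e)(s)`. The
class of `U_{d,k}` is the sum of its parts over all characters with `α ^ k = 1`, so the topological
zeta function `Y_k` of the series `∑_{d ≥ 1} [U_{d,k}] 𝕃 ^ (-n d) T ^ d` (`zetaC`) is
`∑_{e ∣ k} φ(e) Z^(e)`. In terms of a resolution: the cover over the stratum `E_I°` contributes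
`gcd(k, m_I) χ(E_I°) ∏_{i ∈ I} 1 / (N_i s + ν_i)`, and `gcd(k, m_I) = ∑_{e ∣ k, e ∣ m_I} φ(e)`. So
`Z^(e)` is defined by `φ(e) Z^(e) = ∑_{i k = e} μ(i) Y_k` (`IsTwistedTop`). The topological zeta
function of a series is its value at `T = 𝕃 ^ (-s)` under a homomorphism `E` from the Grothendieck ring
`𝓜` to a domain `R` with `E(𝕃) ≠ 1`, such as the Hodge-Deligne polynomial, and then a homomorphism
`ε` from `R` to `ℂ` with `ε(E(𝕃)) = 1`, such as `u, v ↦ 1` (`IsTopZeta`).

No resolution is used. Let `g` be the greatest common divisor of the `a b`. Then `f = F ^ g`, and `F` is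
homogeneous of degree one for a one-parameter group which scales the `y_{b,J}`, so
`[U_{d,k}] = gcd(k, g) [U_{d,1}]`. -/

namespace Pool.Agent.Results.MP_b22d1f_ag.MixedDeterminantalTwisted

open MvPolynomial Pool.Agent.W428.MOT Pool.Agent.H628R4.TP Pool.Agent.TH192.DT
  Pool.Agent.TH192.MT Pool.Agent.TH192.MU Pool.Agent.R852.MX

/-- **The twisted monodromy conjecture holds for `f = ∏ b, F_b ^ a b`**, the `F_b` the forms over
products of ideals of minors (Pfaffians) of a generic, symmetric or skew symmetric matrix. For every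
`e ≥ 1` there is exactly one twisted topological zeta function `Z` of `f`. If `e` divides all the `a b`,
it is the topological zeta function of `∑_{d ≥ 1} [U_{d,1}] 𝕃 ^ (-n d) T ^ d`, that is the one for
`e = 1`, and otherwise it is `0`. Every pole `s₀` is one of the `-ν_d / N_d` and `-1 / a b`, `e` divides
`N_d` (`a b`), and `s₀` is a root of every polynomial `b'` with `b'(s) f ^ s = P(s) f ^ (s + 1)`, in
particular of the Bernstein-Sato polynomial of `f`. By the theorem of Malgrange and Kashiwara,
`exp(2 π i s₀)` is then an eigenvalue of the monodromy of `f` at some point. -/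
theorem result (S : MSpace) (T B : ℕ) (hB : 0 < B) (p : Fin T → ℕ) (β : Fin T → Fin B)
    (a : Fin B → ℕ) (hp : ∀ t, S.Small (p t))
    (ha : ∀ b, 0 < a b) (e : ℕ) (he : 0 < e) (R : Type) [CommRing R] [IsDomain R]
    (E : MK ℂ →+* R) (ε : R →+* ℂ)
    (hε : ε (E ((Lu ℂ : (MK ℂ)ˣ) : MK ℂ)) = 1) (hE : E ((Lu ℂ : (MK ℂ)ˣ) : MK ℂ) ≠ 1) :
    ∃ Z : RatFunc ℂ, IsTwistedTop E ε (map (Int.castRingHom ℂ) (mixForm S p β a)) e Z ∧
      (∀ Z', IsTwistedTop E ε (map (Int.castRingHom ℂ) (mixForm S p β a)) e Z' → Z' = Z) ∧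
      ((∀ b, e ∣ a b) → IsTopZeta E ε (zetaC (map (Int.castRingHom ℂ) (mixForm S p β a)) 1) Z) ∧
      ((∃ b, ¬ e ∣ a b) → Z = 0) ∧
      ∀ s₀ : ℂ, Z.denom.eval s₀ = 0 →
        (∃ q ∈ mixPairs S p β a, (e : ℤ) ∣ q.2 ∧ s₀ = (q.1 : ℂ) / q.2) ∧
        ∀ b' : Polynomial ℂ, IsBFunction (map (Int.castRingHom ℂ) (mixForm S p β a)) b' →
          b'.eval s₀ = 0 := by
  obtain ⟨Z, h1, h2, h3, h4, h5⟩ := twisted_mix S hB p β a hp ha e he E ε hε hE
  refine ⟨Z, h1, h2, h3, h4, fun s₀ hs => ?_⟩
  obtain ⟨h6, q, hq, rfl⟩ := h5 s₀ hs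
  exact ⟨⟨q, hq, dvd_mix S p β a e h6 q hq, rfl⟩, (mix_roots S p β a hp ha q hq).2.2.1⟩

end Pool.Agent.Results.MP_b22d1f_ag.MixedDeterminantalTwisted
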