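import Pool.Agent.R852.RT.Last

/-!
# Twisted topological zeta functions of `h ^ c ∏_t F_t ^ a_t`

Let `h ≠ 0` and `g t j` be polynomials in the variables `x_i`, `I_t = (g t j)_j ≠ 0`, let
`F_t = ∑_j y_{t,j} g t j(x)` with further variables `y_{t,j}`, `T` nonempty, and let
`f = h ^ c ∏_t F_t ^ a_t` (`formFam`), `a_t ≥ 1`. New is the factor `h ^ c`, which is an arbitrary
polynomial in the `x_i`.

Let `Y` be a log resolution of the ideal `I = h ^ c ∏_t I_t ^ a_t`, with the components `E_i` (among them
the strict transforms of the components of `h = 0`), `k i = ord_{E_i} K`, `m i = ord_{E_i} h`,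
`l i t = ord_{E_i} I_t`. Locally on `Y` the form `F_t` is one of the `g t j` times
`y_{t,j} + ∑_{i ≠ j} h_i y_{t,i}`; hence `Y` times the space of the `y` is an embedded resolution of `f`,
with the components `E_i`, of multiplicity `c * m i + ∑_t a_t * l i t`, and the strict transforms of the
`F_t = 0`, of multiplicity `a_t`: `mulH`, `nuH`. The twisted topological zeta function is `twZ`.

(1) If, for all `E_i` which occur in a stratum with nonzero Euler characteristic and whose multiplicity
is positive and divisible by `d`, the number `-(k i + 1) / N_i` comes from a Rees divisor of `I`, then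
every pole of the twisted topological zeta function `Z^(d)` is a root of the Bernstein-Sato polynomial
of `f`. Nothing is assumed about the components whose multiplicity is not divisible by `d`.

(2) The group `ℂ ^ *` acts freely on the complement of `F_t = 0` by scaling the `y_{t,j}`, and the
strata are invariant; so the strata which are not contained in the strict transform of `F_t = 0`
have the Euler characteristic `0`. So `Z^(d) = 0`, if `d` does not divide all the `a_t`; and if `d` divides
`c` and the `a_t`, then all multiplicities are divisible by `d`, and `Z^(d) = Z ∏_t 1 / (1 + a_t s)`,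
where `Z` is the topological zeta function of the ideal `I`. In these cases the monodromy conjecture
for `Z^(d)` holds for all ideals `I` in the class `TPw WeakAtP WeakHyp false`. This is the least class
of ideals, which contains `(x ^ m)`, all nonzero ideals of `ℂ[x, y]`, ideals of forms, ideals whose
numerical data come from Rees divisors, ideals with very general coefficients, products of ideals
of linear subspaces with Rees flats, and nondegenerate polynomials, and which is closed under sums
and products in disjoint sets of variables, the formation of products of powers of forms as above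
(with a factor `h`), of Thom-Sebastiani sums `∑ y_j f_j(x) + g(z)`, and of powers of such
hypersurfaces.

The proof: a functional equation of `f` with `b` gives a functional equation of the ideal `I` with
`b'`, `b(s) = ∏_t ∏_{1 ≤ i ≤ a_t} (a_t s + i) b'(s)` (`functionalEq_strong`); a Rees divisor of `I`
gives roots of `b'`, by a residue computation at a general point (`rees_prod`); for the class see
`Pool/Agent/R852/TP`.
-/

set_option autoImplicit false

namespace Pool.Agent.Results.MP_b22d1f_ag.PowersOfFormsTwisted

open MvPolynomial Pool.Agent.TH192.DT Pool.Agent.Y230.TH Pool.Agent.R852.TP Pool.Agent.R852.RT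
  Pool.Agent.W574.SM
open Pool.Agent.H628R4.TP (IsBFunction)
open Pool.Agent.Y228.RR (FromRees)

/-- **The twisted monodromy conjecture for `f = h ^ c ∏_t F_t ^ a_t`.**

(1) Every pole `s₀` of the twisted topological zeta function `Z^(d)` of `f`, computed on the
resolution described above (with arbitrary integers `χ` in the place of the Euler characteristics of
the strata), is a root of every `b` with `b(s) f ^ s = P(s) f ^ (s + 1)`, in particular of the
Bernstein-Sato polynomial of `f`, if the numbers `-ν_i / N_i` of the components `E_i` with `d ∣ N_i`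
come from Rees divisors of the ideal `h ^ c ∏_t I_t ^ a_t` (`FromRees`, applied to the family `gO h g`
of the ideals `(h)` and `I_t` and the exponents `aO c a`).

(2) Let the ideal `h ^ c ∏_t I_t ^ a_t` (`genFam`) be in the class `TPw WeakAtP WeakHyp false`, with the
topological zeta function `Z`, and let `d` divide `c` or not divide all the `a_t`. Let `Zd = Z^(d)` be
`Z ∏_t 1 / (1 + a_t s)` if `d` divides all `a_t` (and `c`), and `0` if `d` does not divide all `a_t`. Then for
every pole `s₀` of `Zd` there is `i ∈ ℕ` with `b(s₀ - i) = 0`. By the theorem of Malgrange and Kashiwara,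
`exp(2 π i s₀)` is an eigenvalue of the monodromy of `f` at some point of `{f = 0}`. -/
theorem result :
    (∀ {σ T I : Type} [Fintype σ] [DecidableEq σ] [Fintype T] [DecidableEq T] [Nonempty T]
      [Fintype I] {κ : T → Type} [∀ t, Fintype (κ t)] [∀ t, DecidableEq (κ t)] (c : ℕ) (a : T → ℕ)
      (h : MvPolynomial σ ℂ) (g : (t : T) → κ t → MvPolynomial σ ℂ) (_ : ∀ t, 0 < a t)
      (_ : h ≠ 0) (_ : ∀ t, ∃ j, g t j ≠ 0) (k m : I → ℕ) (l : I → T → ℕ)
      (χ : Finset (I ⊕ T) → ℤ) (d : ℕ)
      (_ : ∀ i, 0 < c * m i + ∑ t, a t * l i t → d ∣ c * m i + ∑ t, a t * l i t →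
        (∃ J, χ J ≠ 0 ∧ Sum.inl i ∈ J) →
        FromRees (gO h g) (aO c a) 1 (k i + 1) (c * m i + ∑ t, a t * l i t))
      (s₀ : ℂ) (_ : (twZ d (nuH T k) (mulH c a m l) χ).denom.eval s₀ = 0) (b : Polynomial ℂ)
      (_ : IsBFunction ((formFam a (h ^ c) g).f 0) b), b.eval s₀ = 0) ∧
    (∀ {σ T : Type} [Fintype T] [DecidableEq T] [Nonempty T] {κ : T → Type}
      [∀ t, Fintype (κ t)] (c : ℕ) (a : T → ℕ)
      (h : MvPolynomial σ ℂ) (g : (t : T) → κ t → MvPolynomial σ ℂ) (_ : ∀ t, 0 < a t)
      (Z : RatFunc ℂ) (_ : TPw WeakAtP WeakHyp false (genFam a (h ^ c) g) Z) (d : ℕ)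
      (Zd : RatFunc ℂ) (_ : (∀ t, d ∣ a t) → d ∣ c ∧ Zd = Z * ∏ t, fac (a t) 1)
      (_ : (¬ ∀ t, d ∣ a t) → Zd = 0) (s₀ : ℂ)
      (_ : Zd.denom.eval s₀ = 0) (b : Polynomial ℂ)
      (_ : IsBFunction ((formFam a (h ^ c) g).f 0) b), ∃ i : ℕ, b.eval (s₀ - i) = 0) :=
  last

end Pool.Agent.Results.MP_b22d1f_ag.PowersOfFormsTwisted
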